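import Pool.Agent.Run7.h819.GapScale
import Pool.Agent.Results.MP_a53ef7_an.DimensionOne

/-!
# MP_a53ef7_an: scaling of truncated gap integrals for exponents below one, all dimensions

For `m ≥ 2`, every `0 ≤ p < 1` and every compact metric target `N` the inequality
`G_p^ε(f, Ω) ≤ C (δ/ε)^(m-p) G_p^δ(f, Ω)` holds, for all convex `Ω ⊂ ℝ^m`, all measurable
`f : Ω → N` and all `0 < δ < ε`, with the constant `C = 4 · 8^m`, which depends neither on `p` nor on
`N`.  For `m = 1` it fails (starting library).  So the answer to Q1 is: yes exactly for `m ≥ 2`.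
-/

set_option autoImplicit false

open MeasureTheory Set
open scoped ENNReal

namespace Pool.Agent.Results.MP_a53ef7_an.AllDimensions

/-- The truncated gap integral `G_p^t(f, Ω)`:
`∫_Ω ∫_Ω 1_{d(f y, f x) ≥ t} (d(f y, f x) - t)^p / |y - x|^(2m) dy dx` (real powers, `0^0 = 1`). -/
noncomputable def gapIntegral {m : ℕ} {N : Type} [MetricSpace N] (p t : ℝ)
    (f : EuclideanSpace ℝ (Fin m) → N) (Ω : Set (EuclideanSpace ℝ (Fin m))) : ℝ≥0∞ :=
  ∫⁻ x in Ω, ∫⁻ y in Ω, if t ≤ dist (f y) (f x) then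
    ENNReal.ofReal ((dist (f y) (f x) - t) ^ p / ‖y - x‖ ^ (2 * m)) else 0

/-- The inequality of the question, for the dimension `m`, the exponent `p`, the target `N` and the
constant `C`: for all convex `Ω` and all `f` that are (almost everywhere) measurable on `Ω`. -/
def Inequality (m : ℕ) (N : Type) [MetricSpace N] [MeasurableSpace N] (p C : ℝ) : Prop :=
  ∀ (Ω : Set (EuclideanSpace ℝ (Fin m))) (f : EuclideanSpace ℝ (Fin m) → N) (δ ε : ℝ),
    Convex ℝ Ω → AEMeasurable f (volume.restrict Ω) → 0 < δ → δ < ε →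
      gapIntegral p ε f Ω ≤ ENNReal.ofReal (C * (δ / ε) ^ ((m : ℝ) - p)) * gapIntegral p δ f Ω

/-- `N` contains an isometric copy of the interval `[0, ℓ]`. -/
def HasArc (N : Type) [MetricSpace N] (ℓ : ℝ) : Prop :=
  ∃ γ : ℝ → N, ∀ s ∈ Icc 0 ℓ, ∀ t ∈ Icc 0 ℓ, dist (γ s) (γ t) = |s - t|

theorem gap_eq_H {m : ℕ} {N : Type} [MetricSpace N] (p t : ℝ)
    (f : EuclideanSpace ℝ (Fin m) → N) (Ω : Set (EuclideanSpace ℝ (Fin m))) :
    gapIntegral p t f Ω = Run7.h819.GapSub.H Ω f (Run7.h819.GapSub.wp p t) := by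
  unfold gapIntegral Run7.h819.GapSub.H
  apply lintegral_congr
  intro x
  apply lintegral_congr
  intro y
  unfold Run7.h819.GapSub.wp Run7.h819.GapSub.w
  split_ifs with h
  · rw [div_eq_mul_inv, ENNReal.ofReal_mul (Real.rpow_nonneg (by linarith) _)]
  · rw [zero_mul]

theorem gap_congr {m : ℕ} {N : Type} [MetricSpace N] (p t : ℝ)
    {f g : EuclideanSpace ℝ (Fin m) → N} {Ω : Set (EuclideanSpace ℝ (Fin m))}
    (h : f =ᵐ[volume.restrict Ω] g) : gapIntegral p t f Ω = gapIntegral p t g Ω := by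
  unfold gapIntegral
  apply lintegral_congr_ae
  filter_upwards [h] with x hx
  apply lintegral_congr_ae
  filter_upwards [h] with y hy
  rw [hx, hy]

theorem gap_interior {m : ℕ} {N : Type} [MetricSpace N] (p t : ℝ)
    (f : EuclideanSpace ℝ (Fin m) → N) {Ω : Set (EuclideanSpace ℝ (Fin m))} (hΩ : Convex ℝ Ω) :
    gapIntegral p t f Ω = gapIntegral p t f (interior Ω) := by
  have h : volume.restrict (interior Ω) = volume.restrict Ω :=
    Measure.restrict_congr_set (interior_ae_eq_of_null_frontier (hΩ.addHaar_frontier volume))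
  unfold gapIntegral
  rw [h]

theorem positive (m : ℕ) (N : Type) [MetricSpace N] [CompactSpace N] [MeasurableSpace N]
    [BorelSpace N] (p : ℝ) (hm : 2 ≤ m) (hp : 0 ≤ p) (hp1 : p < 1) :
    Inequality m N p (4 * 8 ^ m) := by
  intro Ω f δ ε hΩ hf hδ hδε
  obtain ⟨g, hg, hfg⟩ := hf
  rw [gap_congr p ε hfg, gap_congr p δ hfg, gap_interior p ε g hΩ, gap_interior p δ g hΩ,
    gap_eq_H, gap_eq_H]
  have hD : ∀ x y, dist (g x) (g y) ≤ Metric.diam (univ : Set N) := fun x y =>
    Metric.dist_le_diam_of_mem isCompact_univ.isBounded (mem_univ _) (mem_univ _)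
  exact Run7.h819.GapSub.scale_open hm isOpen_interior.measurableSet hΩ.interior hg hD hp hp1 hδ hδε

/-- **Answer to Q1.** For `m ≥ 2`, all `0 ≤ p < 1` and every compact metric target, the inequality
holds with the constant `4 · 8^m`; and for a compact target that contains an arc (every compact
Riemannian manifold of positive dimension) some constant works if and only if `m ≥ 2`. -/
theorem result :
    (∀ (m : ℕ) (N : Type) [MetricSpace N] [CompactSpace N] [MeasurableSpace N] [BorelSpace N]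
      (p : ℝ), 2 ≤ m → 0 ≤ p → p < 1 → Inequality m N p (4 * 8 ^ m)) ∧
    (∀ (m : ℕ) (N : Type) [MetricSpace N] [CompactSpace N] [MeasurableSpace N] [BorelSpace N]
      (p ℓ : ℝ), 1 ≤ m → 0 ≤ p → p < 1 → 0 < ℓ → HasArc N ℓ →
        ((∃ C : ℝ, Inequality m N p C) ↔ 2 ≤ m)) := by
  refine ⟨?_, ?_⟩
  · intro m N _ _ _ _ p hm hp hp1
    exact positive m N p hm hp hp1
  · intro m N _ _ _ _ p ℓ hm hp hp1 hℓ hN
    constructor
    · rintro ⟨C, hC⟩
      by_contra h
      have h1 : m = 1 := by omega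
      subst h1
      apply DimensionOne.neg N ℓ hℓ hN p hp hp1
      refine ⟨C, ?_⟩
      intro Ω f δ ε hΩ hf hδ hδε
      exact hC Ω f δ ε hΩ hf.aemeasurable hδ hδε
    · intro h
      exact ⟨_, positive m N p h hp hp1⟩

end Pool.Agent.Results.MP_a53ef7_an.AllDimensions
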